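import Pool.Agent.Run7.h431.MX.TR

/-!
# Piece TATE
-/

set_option autoImplicit false

universe u

namespace Run7.h431.MX

open Run7.h900.MX

lemma comm_ne {P : Type u} [Group P] [Finite P] (p : ℕ) (hp : p.Prime) (hP : IsPGroup p P) (Q : Subgroup P)
    [Q.Normal] (hQ : Q ≠ ⊥) : ¬ Q ≤ ⁅Q, (⊤ : Subgroup P)⁆ := by
  intro h
  have : Fact p.Prime := ⟨hp⟩
  have hnil : Group.IsNilpotent P := hP.isNilpotent
  obtain ⟨n, hn⟩ := Subgroup.nilpotent_iff_lowerCentralSeries.1 hnil
  have key : ∀ k : ℕ, Q ≤ (⊤ : Subgroup P).lowerCentralSeries k := by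
    intro k
    induction k with
    | zero => exact le_top
    | succ k ih =>
      rw [Subgroup.lowerCentralSeries_succ]
      exact h.trans (Subgroup.commutator_mono ih le_rfl)
  have := key n
  rw [hn] at this
  exact hQ (eq_bot_iff.2 this)

lemma exists_phi {P : Type u} [Group P] [Finite P] (p : ℕ) (hp : p.Prime) (hP : IsPGroup p P) (Q : Subgroup P)
    [Q.Normal] (hQ : Q ≠ ⊥) : ∃ (A : Type u) (_ : CommGroup A) (ϕ : Q →* A), (∀ a : A, a ^ p = 1) ∧
      (∀ h : P, ∀ x y : Q, (y : P) = h * x * h⁻¹ → ϕ y = ϕ x) ∧ ∃ x, ϕ x ≠ 1 := by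
  classical
  have : Fact p.Prime := ⟨hp⟩
  have hne := comm_ne p hp hP Q hQ
  let C : Subgroup P := ⁅Q, (⊤ : Subgroup P)⁆
  have hC : C.Normal := inferInstance
  have hcomm : ∀ (h : P) (x : Q), ((h * x * h⁻¹ : P) : P ⧸ C) = ((x : P) : P ⧸ C) := by
    intro h x
    have h1 : (x : P) * h * (x : P)⁻¹ * h⁻¹ ∈ C := Subgroup.commutator_mem_commutator x.2 (Subgroup.mem_top h)
    rw [eq_comm, QuotientGroup.eq, ← C.inv_mem_iff]
    have h3 : ((x : P)⁻¹ * (h * x * h⁻¹))⁻¹ = (x : P)⁻¹ * ((x : P) * h * (x : P)⁻¹ * h⁻¹) * ((x : P)⁻¹)⁻¹ := by group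
    rw [h3]
    exact hC.conj_mem _ h1 _
  let f : Q →* P ⧸ C := (QuotientGroup.mk' C).comp Q.subtype
  let Z : Subgroup (P ⧸ C) := f.range
  let g : Q →* Z := f.rangeRestrict
  have hsurj : Function.Surjective g := f.rangeRestrict_surjective
  let _ : CommGroup Z :=
    { (inferInstance : Group Z) with
      mul_comm := by
        intro a b
        obtain ⟨x, rfl⟩ := hsurj a
        obtain ⟨y, rfl⟩ := hsurj b
        apply Subtype.ext
        have := hcomm (x : P) y
        have h2 : ((((x : P) * y * (x : P)⁻¹ : P)) : P ⧸ C)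
          = ((x : P) : P ⧸ C) * ((y : P) : P ⧸ C) * ((x : P) : P ⧸ C)⁻¹ := rfl
        rw [h2, mul_inv_eq_iff_eq_mul] at this
        exact this }
  let R : Subgroup Z := (powMonoidHom p : Z →* Z).range
  refine ⟨Z ⧸ R, inferInstance, (QuotientGroup.mk' R).comp g, ?_, ?_, ?_⟩
  · intro a
    induction a using QuotientGroup.induction_on with
    | H z =>
      change ((z ^ p : Z) : Z ⧸ R) = 1
      rw [QuotientGroup.eq_one_iff]
      exact ⟨z, rfl⟩
  · intro h x y hxy
    have : g y = g x := by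
      apply Subtype.ext
      change ((y : P) : P ⧸ C) = ((x : P) : P ⧸ C)
      rw [hxy]
      exact hcomm h x
    change ((g y : Z) : Z ⧸ R) = ((g x : Z) : Z ⧸ R)
    rw [this]
  · by_contra hcon
    have h0 : ∀ x, (QuotientGroup.mk' R).comp g x = 1 := by
      intro x
      by_contra hx
      exact hcon ⟨x, hx⟩
    have hpow : ∀ z : Z, ∃ w : Z, w ^ p = z := by
      intro z
      obtain ⟨x, rfl⟩ := hsurj z
      have := h0 x
      change ((g x : Z) : Z ⧸ R) = 1 at this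
      rw [QuotientGroup.eq_one_iff] at this
      exact this
    have hpow' : ∀ (k : ℕ) (z : Z), ∃ w : Z, w ^ p ^ k = z := by
      intro k
      induction k with
      | zero => exact fun z => ⟨z, by simp⟩
      | succ k ih =>
        intro z
        obtain ⟨w, rfl⟩ := ih z
        obtain ⟨v, rfl⟩ := hpow w
        exact ⟨v, by rw [pow_succ', pow_mul]⟩
    have hZ : IsPGroup p Z := (hP.to_subgroup Q).of_surjective g hsurj
    obtain ⟨n, hn⟩ := IsPGroup.iff_card.1 hZ
    have hZ1 : ∀ z : Z, z = 1 := by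
      intro z
      obtain ⟨w, rfl⟩ := hpow' n z
      rw [← hn]
      exact pow_card_eq_one'
    apply hne
    intro x hx
    have h1 := hZ1 (g ⟨x, hx⟩)
    have h2 : ((x : P) : P ⧸ C) = 1 := congrArg (fun z : Z => (z : P ⧸ C)) h1
    rwa [QuotientGroup.eq_one_iff] at h2

/-- the index of the intersection of a normal subgroup with `P` divides the index of `P` -/
lemma relIndex_dvd {Γ : Type u} [Group Γ] [Finite Γ] (K P : Subgroup Γ) [K.Normal] :
    (K ⊓ P).relIndex K ∣ P.index := by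
  have h1 : Nat.card (K ⊓ P : Subgroup Γ) * (K ⊓ P).relIndex K = Nat.card K := by
    have := Subgroup.relIndex_mul_relIndex (H := ⊥) (K := K ⊓ P) (L := K) bot_le inf_le_left
    rwa [Subgroup.relIndex_bot_left, Subgroup.relIndex_bot_left] at this
  have h2 : Nat.card (K ⊓ P : Subgroup Γ) * (K ⊓ P).relIndex P = Nat.card P := by
    have := Subgroup.relIndex_mul_relIndex (H := ⊥) (K := K ⊓ P) (L := P) bot_le inf_le_right
    rwa [Subgroup.relIndex_bot_left, Subgroup.relIndex_bot_left] at this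
  have h3 : Nat.card K * K.relIndex (P ⊔ K) = Nat.card (P ⊔ K : Subgroup Γ) := by
    have := Subgroup.relIndex_mul_relIndex (H := ⊥) (K := K) (L := P ⊔ K) bot_le le_sup_right
    rwa [Subgroup.relIndex_bot_left, Subgroup.relIndex_bot_left] at this
  have h4 : Nat.card P * P.relIndex (P ⊔ K) = Nat.card (P ⊔ K : Subgroup Γ) := by
    have := Subgroup.relIndex_mul_relIndex (H := ⊥) (K := P) (L := P ⊔ K) bot_le le_sup_left
    rwa [Subgroup.relIndex_bot_left, Subgroup.relIndex_bot_left] at this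
  rw [Subgroup.relIndex_sup_right] at h3
  have h5 : K.relIndex P = (K ⊓ P).relIndex P := (Subgroup.inf_relIndex_right K P).symm
  rw [h5] at h3
  have hpos : 0 < Nat.card P := Nat.card_pos
  have h6 : Nat.card P * (K ⊓ P).relIndex K = Nat.card P * P.relIndex (P ⊔ K) := by
    rw [h4, ← h3, ← h1, ← h2]
    ring
  have h7 : (K ⊓ P).relIndex K = P.relIndex (P ⊔ K) := Nat.eq_of_mul_eq_mul_left hpos h6
  rw [h7]
  exact Subgroup.relIndex_dvd_index_of_le le_sup_left

lemma orderOf_dvd_trivial {A : Type u} [Group A] {a : A} {p n : ℕ} (hp : p.Prime) (h1 : a ^ p = 1) (h2 : a ^ n = 1)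
    (h3 : ¬ p ∣ n) : a = 1 := by
  have h4 := orderOf_dvd_of_pow_eq_one h1
  have h5 := orderOf_dvd_of_pow_eq_one h2
  rcases (Nat.dvd_prime hp).1 h4 with h6 | h6
  · exact orderOf_eq_one_iff.1 h6
  · rw [h6] at h5
    exact absurd h5 h3

theorem t_TATE : S_TR.{u} → S_TATE.{u} := by
  intro hTR Γ _ _ p hp P N hP hi hN hNP
  classical
  have : Fact p.Prime := ⟨hp⟩
  let S : Set Γ := {x | x ∈ N ∧ ¬ p ∣ orderOf x}
  let K : Subgroup Γ := Subgroup.normalClosure S
  have hK : K.Normal := Subgroup.normalClosure_normal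
  have hKN : K ≤ N := Subgroup.normalClosure_le_normal (fun x hx => hx.1)
  -- homomorphisms of `K` into groups of exponent `p`
  have hhom : ∀ (A : Type u) [CommGroup A], (∀ a : A, a ^ p = 1) → ∀ f : K →* A, ∀ x, f x = 1 := by
    intro A _ hA f
    have hle : K ≤ f.ker.map K.subtype := by
      change Subgroup.closure (Group.conjugatesOfSet S) ≤ _
      rw [Subgroup.closure_le]
      intro x hx
      have hxK : x ∈ K := Subgroup.conjugatesOfSet_subset_normalClosure hx
      refine ⟨⟨x, hxK⟩, ?_, rfl⟩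
      rw [SetLike.mem_coe, MonoidHom.mem_ker]
      obtain ⟨a, ⟨_, ha⟩, hax⟩ := Group.mem_conjugatesOfSet_iff.1 hx
      obtain ⟨c, hc⟩ := isConj_iff.1 hax
      have ho : x ^ orderOf a = 1 := by
        rw [← hc, conj_pow, pow_orderOf_eq_one]
        group
      refine orderOf_dvd_trivial hp (hA _) (n := orderOf a) ?_ ha
      rw [← map_pow]
      have : (⟨x, hxK⟩ : K) ^ orderOf a = 1 := Subtype.ext ho
      rw [this, map_one]
    intro x
    obtain ⟨y, hy, hyx⟩ := hle x.2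
    have : y = x := Subtype.ext hyx
    rw [← this]
    exact hy
  have hpow : ∀ x ∈ N, ∃ k : ℕ, x ^ p ^ k ∈ K := by
    intro x hx
    have hpos : orderOf x ≠ 0 := (orderOf_pos x).ne'
    obtain ⟨k, m, hm, hkm⟩ := Nat.exists_eq_pow_mul_and_not_dvd hpos p hp.ne_one
    refine ⟨k, Subgroup.subset_normalClosure ⟨N.pow_mem hx _, ?_⟩⟩
    have : orderOf (x ^ p ^ k) = m := by
      rw [orderOf_pow' x (pow_ne_zero k hp.ne_zero), hkm, Nat.gcd_eq_right (Dvd.intro m rfl)]
      exact Nat.mul_div_cancel_left m (pow_pos hp.pos k)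
    rw [this]
    exact hm
  refine ⟨K, hK, hKN, ?_, hpow⟩
  -- the intersection with `P` is trivial
  have hn : ¬ p ∣ (K ⊓ P).relIndex K := fun h => hi (h.trans (relIndex_dvd K P))
  have hQ : K.subgroupOf P = ⊥ := by
    by_contra hQ
    obtain ⟨A, _, ϕ, hA, hinv, ⟨x, hx⟩⟩ := exists_phi p hp hP (K.subgroupOf P) hQ
    let j : (K ⊓ P : Subgroup Γ) →* K.subgroupOf P :=
      { toFun := fun x => ⟨⟨(x : Γ), x.2.2⟩, x.2.1⟩
        map_one' := rfl
        map_mul' := fun x y => rfl }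
    obtain ⟨ψ, hψ⟩ := hTR Γ p hp A hA K P hK hn (hhom A hA) (ϕ.comp j) (by
      intro h hh x y hxy
      refine hinv ⟨h, hh⟩ (j x) (j y) ?_
      exact Subtype.ext hxy)
    have hker : Phi p P ≤ ψ.ker.map P.subtype := by
      unfold Phi
      rw [Subgroup.closure_le]
      rintro y (⟨a, ha, rfl⟩ | ⟨a, ha, b, hb, rfl⟩)
      · refine ⟨⟨a, ha⟩ ^ p, ?_, rfl⟩
        rw [SetLike.mem_coe, MonoidHom.mem_ker, map_pow, hA]
      · refine ⟨⟨a, ha⟩ * ⟨b, hb⟩ * ⟨a, ha⟩⁻¹ * ⟨b, hb⟩⁻¹, ?_, rfl⟩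
        rw [SetLike.mem_coe, MonoidHom.mem_ker, map_mul, map_mul, map_mul, map_inv, map_inv]
        rw [mul_inv_cancel_comm, mul_inv_cancel]
    apply hx
    have hxK : ((x : P) : Γ) ∈ K ⊓ P := ⟨x.2, x.1.2⟩
    have h1 := hψ x.1 hxK
    have h2 : (ϕ.comp j) ⟨((x : P) : Γ), hxK⟩ = ϕ x := rfl
    rw [← h2, ← h1]
    obtain ⟨y, hy, hyx⟩ := hker (hNP ⟨hKN hxK.1, hxK.2⟩)
    have : y = x.1 := Subtype.ext hyx
    rw [← this]
    exact hy
  have hbot : K ⊓ P = ⊥ := by
    rw [eq_bot_iff]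
    intro x hx
    have : (⟨x, hx.2⟩ : P) ∈ K.subgroupOf P := hx.1
    rw [hQ, Subgroup.mem_bot] at this
    rw [Subgroup.mem_bot]
    exact congrArg Subtype.val this
  rw [hbot, Subgroup.relIndex_bot_left] at hn
  exact hn

end Run7.h431.MX
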