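import Pool.Agent.Run7.h900.MX.Stm

/-!
# Piece TR (transfer)
-/

set_option autoImplicit false

universe u

namespace Run7.h431.MX

open Run7.h900.MX

/-- The transfer of an element which acts trivially on the cosets. -/
lemma transfer_of_const {W : Type u} [Group W] {H : Subgroup W} [H.FiniteIndex] {A : Type u} [CommGroup A]
    (τ : H →* A) (z : W) (c : A) (hz : ∀ w : W, ∃ hw : w⁻¹ * z * w ∈ H, τ ⟨_, hw⟩ = c) :
    τ.transfer z = c ^ H.index := by
  classical
  let T : H.LeftTransversal := default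
  let := H.fintypeQuotientOfFiniteIndex
  rw [MonoidHom.transfer_def τ T z]
  have hfix : ∀ q : W ⧸ H, z⁻¹ • q = q := by
    intro q
    induction q using QuotientGroup.induction_on with
    | H w =>
      obtain ⟨hw, _⟩ := hz w
      change ((z⁻¹ * w : W) : W ⧸ H) = (w : W ⧸ H)
      rw [QuotientGroup.eq]
      have : (z⁻¹ * w)⁻¹ * w = w⁻¹ * z * w := by group
      rw [this]
      exact hw
  have hval : ∀ q : W ⧸ H, (((z • T).2.leftQuotientEquiv q : W)) = z * (T.2.leftQuotientEquiv q : W) := by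
    intro q
    rw [Subgroup.smul_apply_eq_smul_apply_inv_smul, hfix q]
    rfl
  unfold Subgroup.leftTransversals.diff
  have : ∀ q : W ⧸ H, ∀ h, τ ⟨(T.2.leftQuotientEquiv q : W)⁻¹ * ((z • T).2.leftQuotientEquiv q : W), h⟩ = c := by
    intro q h
    obtain ⟨hw, hc⟩ := hz (T.2.leftQuotientEquiv q : W)
    rw [← hc]
    congr 1
    apply Subtype.ext
    change (T.2.leftQuotientEquiv q : W)⁻¹ * ((z • T).2.leftQuotientEquiv q : W)
      = (T.2.leftQuotientEquiv q : W)⁻¹ * z * (T.2.leftQuotientEquiv q : W)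
    rw [hval q, mul_assoc]
  simp only [this]
  rw [Finset.prod_const, Finset.card_univ, Subgroup.index, Nat.card_eq_fintype_card]

section

variable {Γ : Type u} [Group Γ] (K P : Subgroup Γ) [K.Normal]

/-- the semidirect product of `K` and `P` -/
abbrev SD : Type u := K ⋊[(MulAut.conjNormal (H := K)).comp P.subtype] P

lemma SD_mul_left (x y : SD K P) :
    (((x * y).left : K) : Γ) = (x.left : Γ) * ((x.right : Γ) * (y.left : Γ) * (x.right : Γ)⁻¹) := by
  rw [SemidirectProduct.mul_left]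
  rfl

lemma SD_mul_right (x y : SD K P) : (((x * y).right : P) : Γ) = (x.right : Γ) * (y.right : Γ) := rfl

lemma SD_inv_left (x : SD K P) :
    (((x⁻¹).left : K) : Γ) = (x.right : Γ)⁻¹ * (x.left : Γ)⁻¹ * (x.right : Γ) := by
  rw [SemidirectProduct.inv_left]
  change ((x.right⁻¹ : P) : Γ) * ((x.left⁻¹ : K) : Γ) * (((x.right⁻¹ : P) : Γ))⁻¹ = _
  simp

lemma SD_inv_right (x : SD K P) : (((x⁻¹).right : P) : Γ) = (x.right : Γ)⁻¹ := rfl

/-- the subgroup of the elements with the first component in `P` -/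
def HP : Subgroup (SD K P) where
  carrier := {x | ((x.left : K) : Γ) ∈ P}
  mul_mem' := by
    intro x y hx hy
    rw [Set.mem_ofPred_eq] at hx hy ⊢
    rw [SD_mul_left]
    exact P.mul_mem hx (P.mul_mem (P.mul_mem x.right.2 hy) (P.inv_mem x.right.2))
  one_mem' := by
    rw [Set.mem_ofPred_eq]
    exact P.one_mem
  inv_mem' := by
    intro x hx
    rw [Set.mem_ofPred_eq] at hx ⊢
    rw [SD_inv_left]
    exact P.mul_mem (P.mul_mem (P.inv_mem x.right.2) (P.inv_mem hx)) x.right.2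

lemma mem_HP {x : SD K P} : x ∈ HP K P ↔ ((x.left : K) : Γ) ∈ P := Iff.rfl

end


/-- a homomorphism on the subgroup -/
def tauP {Γ : Type u} [Group Γ] (K P : Subgroup Γ) [K.Normal] {A : Type u} [CommGroup A]
    (ϕ : (K ⊓ P : Subgroup Γ) →* A)
    (hϕ : ∀ h ∈ P, ∀ x y : (K ⊓ P : Subgroup Γ), (y : Γ) = h * x * h⁻¹ → ϕ y = ϕ x) : HP K P →* A where
  toFun x := ϕ ⟨(x.1.left : Γ), x.1.left.2, x.2⟩
  map_one' := map_one ϕ
  map_mul' := by
    rintro ⟨x, hx⟩ ⟨y, hy⟩
    rw [mem_HP] at hx hy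
    have h1 : (x.right : Γ) * (y.left : Γ) * (x.right : Γ)⁻¹ ∈ K ⊓ P :=
      ⟨(inferInstance : K.Normal).conj_mem _ y.left.2 _,
        P.mul_mem (P.mul_mem x.right.2 hy) (P.inv_mem x.right.2)⟩
    have h2 := hϕ (x.right : Γ) x.right.2 ⟨(y.left : Γ), y.left.2, hy⟩ ⟨_, h1⟩ rfl
    change ϕ ⟨((x * y).left : Γ), _⟩ = ϕ ⟨(x.left : Γ), _⟩ * ϕ ⟨(y.left : Γ), _⟩
    rw [← h2, ← map_mul]
    congr 1

lemma index_HP {Γ : Type u} [Group Γ] [Finite Γ] (K P : Subgroup Γ) [K.Normal] :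
    (HP K P).index = (K ⊓ P).relIndex K := by
  have h1 : (HP K P).index * Nat.card (HP K P) = Nat.card K * Nat.card P := by
    rw [Subgroup.index_mul_card, SemidirectProduct.card]
  have h2 : Nat.card (HP K P) = Nat.card (K ⊓ P : Subgroup Γ) * Nat.card P := by
    rw [← Nat.card_prod]
    refine Nat.card_congr ⟨fun x => (⟨(x.1.left : Γ), x.1.left.2, x.2⟩, x.1.right),
      fun y => ⟨⟨⟨(y.1 : Γ), y.1.2.1⟩, y.2⟩, y.1.2.2⟩, fun x => rfl, fun y => rfl⟩
  have h3 : Nat.card (K ⊓ P : Subgroup Γ) * (K ⊓ P).relIndex K = Nat.card K :=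
    by
      have := Subgroup.relIndex_mul_relIndex ⊥ (K ⊓ P) K bot_le inf_le_left
      rwa [Subgroup.relIndex_bot_left, Subgroup.relIndex_bot_left] at this
  have hP : 0 < Nat.card P := Nat.card_pos
  have hQ : 0 < Nat.card (K ⊓ P : Subgroup Γ) := Nat.card_pos
  rw [h2, ← h3] at h1
  have h4 : (HP K P).index * (Nat.card (K ⊓ P : Subgroup Γ) * Nat.card P)
      = (K ⊓ P).relIndex K * (Nat.card (K ⊓ P : Subgroup Γ) * Nat.card P) := by
    rw [h1]
    ring
  exact Nat.eq_of_mul_eq_mul_right (Nat.mul_pos hQ hP) h4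

theorem t_TR : S_TR.{u} := by
  intro Γ _ _ p hp A _ hA K P hK hn hKA ϕ hϕ
  have hfin : Finite (SD K P) := Finite.of_equiv (K × P) SemidirectProduct.equivProd.symm
  have hf : (HP K P).FiniteIndex := inferInstance
  let τ := tauP K P ϕ hϕ
  let T : SD K P →* A := τ.transfer
  have hT1 : ∀ k : K, T (SemidirectProduct.inl k) = 1 := fun k => hKA (T.comp SemidirectProduct.inl) k
  have hT2 : ∀ (q : P) (hq : (q : Γ) ∈ K ⊓ P), T (SemidirectProduct.inr q) = ((ϕ ⟨q, hq⟩)⁻¹) ^ (HP K P).index := by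
    intro q hq
    have hq' : (q : Γ)⁻¹ ∈ K := K.inv_mem hq.1
    let z : SD K P := SemidirectProduct.inl ⟨(q : Γ)⁻¹, hq'⟩ * SemidirectProduct.inr q
    have hz : T z = ((ϕ ⟨q, hq⟩)⁻¹) ^ (HP K P).index := by
      refine transfer_of_const τ z _ ?_
      intro w
      have hl : (((w⁻¹ * z * w).left : K) : Γ) = (w.right : Γ)⁻¹ * (q : Γ)⁻¹ * (w.right : Γ) := by
        rw [SD_mul_left, SD_mul_left, SD_mul_right, SD_inv_left, SD_inv_right]
        have h1 : ((z.left : K) : Γ) = (q : Γ)⁻¹ := by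
          change ((((⟨(q : Γ)⁻¹, hq'⟩ : K) * _ : K)) : Γ) = _
          simp
        have h2 : ((z.right : P) : Γ) = (q : Γ) := by
          simp [z]
        rw [h1, h2]
        group
      have hmem : w⁻¹ * z * w ∈ HP K P := by
        rw [mem_HP, hl]
        exact P.mul_mem (P.mul_mem (P.inv_mem w.right.2) (P.inv_mem hq.2)) w.right.2
      refine ⟨hmem, ?_⟩
      have hqi : (q : Γ)⁻¹ ∈ K ⊓ P := (K ⊓ P).inv_mem hq
      change ϕ ⟨(((w⁻¹ * z * w).left : K) : Γ), _⟩ = (ϕ ⟨q, hq⟩)⁻¹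
      rw [← map_inv]
      refine hϕ (w.right : Γ)⁻¹ (P.inv_mem w.right.2) _ _ ?_
      change (((w⁻¹ * z * w).left : K) : Γ) = _
      rw [hl, inv_inv]
      rfl
    have h3 : T z = T (SemidirectProduct.inl ⟨(q : Γ)⁻¹, hq'⟩) * T (SemidirectProduct.inr q) := map_mul T _ _
    rw [hT1, one_mul] at h3
    rw [← h3, hz]
  have hpn : Nat.Coprime (HP K P).index p := by
    rw [index_HP]
    exact ((Nat.Prime.coprime_iff_not_dvd hp).2 hn).symm
  obtain ⟨m, _, hm⟩ := Nat.exists_mul_mod_eq_one_of_coprime hpn hp.one_lt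
  refine ⟨invMonoidHom.comp ((powMonoidHom m).comp (T.comp SemidirectProduct.inr)), ?_⟩
  intro x hx
  change ((T (SemidirectProduct.inr x)) ^ m)⁻¹ = _
  rw [hT2 x hx, ← pow_mul]
  have h5 : ∀ a : A, a ^ ((HP K P).index * m) = a := by
    intro a
    rw [← Nat.div_add_mod ((HP K P).index * m) p, hm, pow_add, pow_mul, hA, one_pow, one_mul, pow_one]
  rw [h5, inv_inv]

end Run7.h431.MX
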